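import Pool.Agent.LE.StmtsQZ
import Pool.Agent.Helper44_LQF.USM
import Pool.Agent.Helper5_LQF.GOD

/-!
# Squad LQZ, row USM: smoothness of the functional
-/

set_option autoImplicit false

open MeasureTheory ProbabilityTheory Function Filter

open scoped ENNReal BigOperators Topology NNReal ComplexOrder Matrix

noncomputable section

namespace Pool.Agent.LE.QZ.H19

open Pool.Agent.Anderson hiding box mem_box card_box
open Pool.Agent.Loc Pool.Agent.Mob Pool.Agent.Helper54.Bal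
  Pool.Agent.Helper96.EXP Pool.Agent.BED
open Pool.Agent.LE.MN Pool.Agent.LE.CL Pool.Agent.LE.IR Pool.Agent.LE.QD Pool.Agent.LE.QF
open Pool.Agent.LE.QF.H44 (CM nsqC ofRealC qf_Dl)

theorem n2_add_le {X : Type} [Fintype X] (f g : X → ℂ) :
    n2 (f + g) ≤ 2 * n2 f + 2 * n2 g := by
  unfold n2
  rw [Finset.mul_sum, Finset.mul_sum, ← Finset.sum_add_distrib]
  apply Finset.sum_le_sum
  intro x _
  have h1 : ‖(f + g) x‖ ≤ ‖f x‖ + ‖g x‖ := norm_add_le _ _
  have h2 := norm_nonneg ((f + g) x)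
  nlinarith [sq_nonneg (‖f x‖ - ‖g x‖), norm_nonneg (f x), norm_nonneg (g x)]

theorem n2_neg {X : Type} [Fintype X] (f : X → ℂ) : n2 (-f) = n2 f := by
  unfold n2
  simp

/-- near a singular point the part of `Ξ` is large -/
theorem tr_Xi {X : Type} [Fintype X] [DecidableEq X] (Y : Matrix X X ℂ) (u : X → ℂ)
    (hu : 0 < n2 u) (hY : n2 ((1 - Y) *ᵥ u) ≤ 1 / 4 * n2 u) (j : ℕ) (hj : 1 ≤ j) :
    (99 / 100 : ℝ) ^ (2 * j) ≤
      (Matrix.trace ((((1 - Y)⁻¹ - 1) * ((1 - Y)⁻¹ - 1)ᴴ) ^ j)).re := by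
  by_contra hcon
  rw [not_le] at hcon
  have hn := Pool.Agent.LE.QF.H5.n2_tr ((1 - Y)⁻¹ - 1) (99 / 100) j (by norm_num) hj hcon.le
  by_cases hdet : IsUnit (1 - Y).det
  · have h1 := hn ((1 - Y) *ᵥ u)
    have h2 : ((1 - Y)⁻¹ - 1) *ᵥ ((1 - Y) *ᵥ u) = u - (1 - Y) *ᵥ u := by
      rw [Matrix.sub_mulVec, Matrix.mulVec_mulVec, Matrix.nonsing_inv_mul _ hdet,
        Matrix.one_mulVec, Matrix.one_mulVec]
    rw [h2] at h1
    have h3 := n2_add_le (u - (1 - Y) *ᵥ u) ((1 - Y) *ᵥ u)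
    rw [sub_add_cancel] at h3
    nlinarith
  · have h1 := hn u
    rw [Matrix.nonsing_inv_apply_not_isUnit _ hdet, zero_sub, Matrix.neg_mulVec,
      Matrix.one_mulVec, n2_neg] at h1
    nlinarith

theorem usm (jma : JmaStmt) (wab : WabStmt) (nnu : NnuStmt) (rsj : RsjStmt) : UsmStmt := by
  intro d M _ D c₁ C₁ c₀ q hc₁ _ hA hq0 hqT
  have hη := hA.hT.2.1
  have hm : 0 < D.m.im := lt_of_lt_of_le hc₁ hA.hm.1
  have hkp : 0 < D.kp q.1 := by
    have h1 : 0 ≤ (D.T - q.1) * D.m.im := mul_nonneg (by linarith) hm.le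
    unfold Dat.kp
    linarith
  obtain ⟨hJ, _, _, hkt, _, hLs, _⟩ := rsj d M D c₁ C₁ c₀ q hc₁ hA hkp
  have hta : 0 < D.ta q.1 := div_pos hkp hm
  -- smoothness of the entries
  have cG : CM D.G q := fun a b => (hJ.hG a b).sm
  have cta : ContDiffAt ℝ 2 (fun r : ℝ × (Tor d M → ℝ) => D.ta r.1) q :=
    hJ.ht.1.comp q contDiffAt_fst
  have cLs : ContDiffAt ℝ 2 (fun r : ℝ × (Tor d M → ℝ) => D.Ls r.1) q :=
    hLs.comp q contDiffAt_fst
  have ctaC := ofRealC cta
  have cBB : CM (fun r => BB (D.G r)) q := fun a b => (cG a b).pow 2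
  have cKK : CM (fun r => KK (D.G r)) q := fun a b => nsqC (cG a b)
  have cY : CM D.Y q := CM.smul ctaC cBB
  have cmu : ∀ a, ContDiffAt ℝ 2 (fun r => D.mu r a) q := fun a =>
    (cG a a).sub contDiffAt_const
  by_cases hu : IsUnit (1 - D.Y q).det
  · right
    have cTh : CM D.Th q := CM.inv jma ((CM.const _ q).sub cY) hu
    have cXi : CM D.Xi q := cTh.sub (CM.const _ q)
    have cU3 : ContDiffAt ℝ 2 D.U3 q := by
      have h1 := (((cXi.mul cXi.star).pow D.j)).trace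
      have h2 := (Complex.reCLM.contDiff.contDiffAt
        (x := (fun r => Matrix.trace ((D.Xi r * (D.Xi r)ᴴ) ^ D.j)) q)).comp q h1
      exact h2.div_const _
    have cph : ∀ a, ContDiffAt ℝ 2 (fun r => D.ph r a) q := fun a => cTh.mulVec cmu a
    have cU1 : ContDiffAt ℝ 2 D.U1 q :=
      ContDiffAt.sum fun a _ => ((nsqC (cph a)).div_const _).pow _
    have cXh : CM D.Xh q :=
      (cG.add (CM.smul ctaC ((cG.mul (CM.diag cph)).mul cG))).sub (CM.const _ q)
    have cU2 : ContDiffAt ℝ 2 D.U2 q :=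
      ContDiffAt.sum fun a _ => ContDiffAt.sum fun b _ => ((nsqC (cXh a b)).div_const _).pow _
    have cLa : ∀ a, ContDiffAt ℝ 2 (fun r => D.La r a) q := fun a =>
      ContDiffAt.sum fun b _ => (cKK a b).pow 2
    have hLs0 : D.Ls q.1 ≠ 0 := by
      have h1 : 0 < D.L₀ := by linarith [hA.hj.2.2.1]
      have h2 : 0 < D.N := by linarith [hA.hj.2.2.2.1]
      have h3 := hA.hj.2.2.2.2
      have h4 := hA.hδ.1
      unfold Dat.Ls
      positivity
    have cU4 : ContDiffAt ℝ 2 D.U4 q :=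
      ContDiffAt.sum fun a _ => ((cLa a).div cLs hLs0).pow _
    have hKs : ∀ a b, KK (D.G q) a b = KK (D.G q) b a := fun a b => by
      unfold KK
      rw [hJ.hs a b]
    have hK0 : ∀ a b, 0 ≤ KK (D.G q) a b := fun a b => by
      unfold KK
      positivity
    have hXs : ∀ a b, D.X q a b = D.X q b a := by
      intro a b
      show D.ta q.1 * Dl (KK (D.G q)) a b = D.ta q.1 * Dl (KK (D.G q)) b a
      congr 1
      unfold Dl
      rw [Matrix.sub_apply, Matrix.sub_apply, hKs a b]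
      congr 1
      by_cases h : a = b
      · subst h; rfl
      · rw [Matrix.diagonal_apply_ne _ h, Matrix.diagonal_apply_ne _ (Ne.symm h)]
    have hX0 : ∀ f, 0 ≤ qf (D.X q) f := by
      intro f
      have h1 : qf (D.X q) f = D.ta q.1 * qf (Dl (KK (D.G q))) f := by
        unfold QF.qf Dat.X
        rw [Finset.mul_sum]
        apply Finset.sum_congr rfl
        intro a _
        rw [Matrix.smul_mulVec, Pi.smul_apply, smul_eq_mul]
        ring
      rw [h1]
      exact mul_nonneg hta.le (qf_Dl _ hKs hK0 f)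
    obtain ⟨hu1, hu2, _⟩ := wab (Tor d M) (D.X q) D.S D.e₀ D.e₁ (D.ta q.1) D.ϖ D.p hXs hX0
      hA.hS.1 hA.hS.2.1 (by linarith [hA.he.1, hA.he.2.1]) (by linarith [hA.he.1]) hta.le
      hA.hϖ.1 (by linarith [hA.hj.2.1])
    have cX : CM D.X q := CM.smul cta
      (CM.sub (CM.diag fun a => ContDiffAt.sum fun b _ => cKK a b) cKK)
    have cW : CM D.W q := CM.inv jma ((cX.add (CM.const _ q)).add (CM.const _ q)) hu2
    have cA : CM (fun r : ℝ × (Tor d M → ℝ) => (D.A r.1)⁻¹) q :=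
      CM.inv jma ((CM.const _ q).add (CM.smul cta (CM.const _ q))) hu1
    have cU5 : ContDiffAt ℝ 2 D.U5 q := ((cA.mul cW).pow _).trace
    have cqf : ∀ f : Tor d M → ℝ, ContDiffAt ℝ 2 (fun r => qf (D.X r) f) q := fun f =>
      ContDiffAt.sum fun a _ => contDiffAt_const.mul
        (cX.mulVec (f := fun _ => f) (fun _ => contDiffAt_const) a)
    have cU6 : ContDiffAt ℝ 2 D.U6 q :=
      contDiffAt_const.mul (cta.mul ((cqf D.f₁).add (cqf D.f₂)))
    exact ((((cU1.add cU2).add cU3).add cU4).add cU5).add cU6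
  · left
    have hdet : (1 - D.Y q).det = 0 := by
      by_contra h
      exact hu (isUnit_iff_ne_zero.mpr h)
    obtain ⟨u, hu0, huY⟩ := Matrix.exists_mulVec_eq_zero_iff.mpr hdet
    have hun : 0 < n2 u := by
      obtain ⟨i, hi⟩ := Function.ne_iff.mp hu0
      unfold n2
      apply Finset.sum_pos' (fun k _ => by positivity)
      exact ⟨i, Finset.mem_univ i, by
        have : 0 < ‖u i‖ := norm_pos_iff.mpr hi
        positivity⟩
    have hc : ContinuousAt (fun r => n2 ((1 - D.Y r) *ᵥ u)) q := by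
      have h1 : CM (fun r => 1 - D.Y r) q := (CM.const _ q).sub cY
      have h2 : ContDiffAt ℝ 2 (fun r => n2 ((1 - D.Y r) *ᵥ u)) q :=
        ContDiffAt.sum fun a _ =>
          nsqC (h1.mulVec (f := fun _ => u) (fun _ => contDiffAt_const) a)
      exact h2.continuousAt
    have h0 : n2 ((1 - D.Y q) *ᵥ u) < 1 / 4 * n2 u := by
      rw [huY]
      have : n2 (0 : Tor d M → ℂ) = 0 := by
        unfold n2
        simp
      rw [this]
      positivity
    have h1 : ∀ᶠ r in 𝓝 q, n2 ((1 - D.Y r) *ᵥ u) < 1 / 4 * n2 u :=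
      hc.eventually_lt_const h0
    have h2 : ∀ᶠ r : ℝ × (Tor d M → ℝ) in 𝓝 q, 0 < D.kp r.1 := by
      have hc : Continuous fun r : ℝ × (Tor d M → ℝ) => D.kp r.1 := by
        unfold Dat.kp
        fun_prop
      exact hc.continuousAt.eventually_const_lt hkp
    filter_upwards [h1, h2] with r hr1 hr2
    obtain ⟨n1, n2, n3, n4, n5, n6⟩ := nnu d M D c₁ C₁ c₀ r hc₁ hA hr2
    have h3 : 1 ≤ D.U3 r := by
      have h4 := tr_Xi (D.Y r) u hun hr1.le D.j (by linarith [hA.hj.1])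
      unfold Dat.U3
      rw [le_div_iff₀ (by positivity), one_mul]
      exact h4
    unfold Dat.U
    linarith

end Pool.Agent.LE.QZ.H19
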